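import Mathlib

namespace Pool.Agent.H.MP_e721cf_gt

section
variable {X ι : Type}

def iv (s : ι × Bool) : ι × Bool := (s.1, !s.2)
lemma iv_iv (s : ι × Bool) : iv (iv s) = s := by simp [iv]
def gen (s : ι × Bool) : FreeGroup ι := if s.2 then .of s.1 else (.of s.1)⁻¹
lemma gen_iv (s : ι × Bool) : gen s * gen (iv s) = 1 := by
  obtain ⟨i, b⟩ := s; cases b <;> simp [gen, iv]

lemma free_act (c : X → ι × Bool → X) (d : X → ℕ) (hd : ∀ x s, d x < d (c x s))
    (hc : ∀ x s y t, c x s = c y t → x = y ∧ s = t) :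
    ∃ φ : ι → Equiv.Perm X, (∀ i x, (∃ s, φ i x = c x s) ∨ ∃ s, x = c (φ i x) s) ∧
      ∀ (w : FreeGroup ι) x, FreeGroup.lift φ w x = x → w = 1 := by
  classical
  have wf : WellFounded (InvImage (· < ·) d) := InvImage.wf d wellFounded_lt
  obtain ⟨U, hU⟩ : ∃ U : X → ι × Bool → Prop,
      ∀ x s, U x s ↔ ¬ ∃ y, x = c y (iv s) ∧ U y (iv s) := by
    refine ⟨wf.fix fun x ih s => ¬ ∃ (y : X) (h : d y < d x), x = c y (iv s) ∧ ih y h (iv s),
      fun x s => ?_⟩
    rw [wf.fix_eq]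
    exact not_congr ⟨fun ⟨y, _, h⟩ => ⟨y, h⟩, fun ⟨y, h⟩ => ⟨y, h.1 ▸ hd y _, h⟩⟩
  obtain ⟨ad, had⟩ : ∃ ad : X → FreeGroup ι, ∀ y s, U y s → ad (c y s) = gen s * ad y := by
    let F : ∀ x, (∀ y, InvImage (· < ·) d y x → FreeGroup ι) → FreeGroup ι := fun x ih =>
      if h : ∃ p : X × ι × Bool, x = c p.1 p.2 then
        (if U h.choose.1 h.choose.2 then gen h.choose.2 * ih h.choose.1
          (lt_of_lt_of_eq (hd _ _) (congrArg d h.choose_spec.symm)) else 1) else 1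
    refine ⟨wf.fix F, fun y s h => ?_⟩
    rw [wf.fix_eq]
    have h1 : ∃ p : X × ι × Bool, c y s = c p.1 p.2 := ⟨(y, s), rfl⟩
    obtain ⟨e1, e2⟩ := hc _ _ _ _ h1.choose_spec
    simp only [F, dif_pos h1, ← e1, ← e2, if_pos h]
    congr 2
    exact e1.symm
  obtain ⟨act, h1, h2⟩ : ∃ act : ι × Bool → X → X, (∀ s x, U x s → act s x = c x s) ∧
      ∀ s x, ¬ U x s → x = c (act s x) (iv s) ∧ U (act s x) (iv s) := by
    refine ⟨fun s x => if h : U x s then c x s else (not_not.1 ((hU x s).not.1 h)).choose,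
      fun s x h => dif_pos h, fun s x h => ?_⟩
    simp only [dif_neg h]
    exact (not_not.1 ((hU x s).not.1 h)).choose_spec
  have h3 : ∀ s x, act (iv s) (act s x) = x := fun s x => by
    by_cases h : U x s
    · have : ¬ U (c x s) (iv s) := fun h' => (hU _ _).1 h' ⟨x, by rw [iv_iv], by rwa [iv_iv]⟩
      rw [h1 s x h]
      have h4 := (h2 _ _ this).1
      rw [iv_iv] at h4
      exact (hc _ _ _ _ h4).1.symm
    · rw [h1 _ _ (h2 s x h).2]; exact (h2 s x h).1.symm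
  have h4 : ∀ s x, ad (act s x) = gen s * ad x := fun s x => by
    by_cases h : U x s
    · rw [h1 s x h, had _ _ h]
    · conv_rhs => rw [(h2 s x h).1, had _ _ (h2 s x h).2, ← mul_assoc, gen_iv, one_mul]
  let φ : ι → Equiv.Perm X := fun i =>
    ⟨act (i, true), act (i, false), h3 (i, true), h3 (i, false)⟩
  refine ⟨φ, fun i x => ?_, fun w x hx => ?_⟩
  · by_cases h : U x (i, true)
    · exact .inl ⟨_, h1 _ x h⟩
    · exact .inr ⟨_, (h2 _ x h).1⟩
  · have : ∀ x, ad (FreeGroup.lift φ w x) = w * ad x := by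
      clear hx
      induction w using FreeGroup.induction_on with
      | C1 => simp
      | of i => intro x; rw [FreeGroup.lift_apply_of]; exact h4 (i, true) x
      | inv_of i _ => intro x; rw [map_inv, FreeGroup.lift_apply_of]; exact h4 (i, false) x
      | mul u v hu hv => intro x; rw [map_mul, Equiv.Perm.mul_apply, hu, hv, mul_assoc]
    have h5 := this x
    rw [hx] at h5
    simpa using h5
end

open UpperHalfPlane Complex Matrix
open scoped MatrixGroups Modular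

abbrev M := Matrix (Fin 2) (Fin 2) ℤ

def Mv (g : M) (z w : ℍ) : Prop := (w : ℂ) * (g 1 0 * z + g 1 1) = g 0 0 * z + g 0 1

lemma Mv.mul {g h : M} {z w u : ℍ} (a : Mv h w u) (b : Mv g z w) : Mv (h * g) z u := by
  simp only [Mv, mul_apply, Fin.sum_univ_two] at *
  push_cast
  linear_combination (g 1 0 * z + g 1 1 : ℂ) * a + (h 0 0 - u * h 1 0 : ℂ) * b

lemma Mv.adj {g : M} {z w : ℍ} (a : Mv g z w) : Mv (adjugate g) w z := by
  simp only [Mv, adjugate_fin_two] at *
  simp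
  linear_combination -a

lemma den_ne {c d : ℤ} {z : ℍ} (h : (c * z + d : ℂ) = 0) : c = 0 ∧ d = 0 := by
  have h1 := congrArg Complex.im h
  simp [z.im_pos.ne'] at h1
  simpa [h1] using h

lemma Mv.den {g : M} (hg : g.det ≠ 0) (z : ℍ) : (g 1 0 * z + g 1 1 : ℂ) ≠ 0 := fun h => by
  obtain ⟨a, b⟩ := den_ne h
  simp [det_fin_two, a, b] at hg

lemma Mv.uniq {g : M} (hg : g.det ≠ 0) {z w u : ℍ} (a : Mv g z w) (b : Mv g z u) : w = u :=
  UpperHalfPlane.ext (mul_right_cancel₀ (Mv.den hg z) (a.trans b.symm))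

lemma Mv.smul {g : M} {z w : ℍ} {k : ℤ} (hk : k ≠ 0) (a : Mv (k • g) z w) : Mv g z w := by
  have : (k : ℂ) ≠ 0 := by exact_mod_cast hk
  simp only [Mv, Matrix.smul_apply, smul_eq_mul] at *
  push_cast at a
  exact mul_left_cancel₀ this (by linear_combination a)

lemma mv_sl (γ : SL(2, ℤ)) (z : ℍ) : Mv γ z (γ • z) := by
  rw [Mv, coe_specialLinearGroup_apply]
  have := Mv.den (g := γ) (by simp) z
  simp only [eq_intCast, ofReal_intCast]
  exact div_mul_cancel₀ _ this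

def Tr (z : ℍ) : Prop := Transcendental ℚ (z : ℂ)

lemma Mv.tr {g : M} (hg : g.det ≠ 0) {z w : ℍ} (a : Mv g z w) (h : Tr w) : Tr z := fun hz => h <| by
  rw [eq_div_of_mul_eq (Mv.den hg z) a]
  rw [← mem_algebraicClosure_iff] at *
  exact div_mem (add_mem (mul_mem (intCast_mem _ _) hz) (intCast_mem _ _))
    (add_mem (mul_mem (intCast_mem _ _) hz) (intCast_mem _ _))

lemma Mv.fix {g : M} {z : ℍ} (a : Mv g z z) (h : Tr z) : g = g 0 0 • (1 : M) := by
  have : (Polynomial.C (g 1 0 : ℚ) * .X ^ 2 + .C (g 1 1 - g 0 0 : ℚ) * .X + .C (- g 0 1 : ℚ)) = 0 := by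
    by_contra h0
    refine h ⟨_, h0, ?_⟩
    simp
    unfold Mv at a
    linear_combination a
  have h2 := congrArg (·.coeff 2) this
  have h1 := congrArg (·.coeff 1) this
  have h0 := congrArg (·.coeff 0) this
  simp [Polynomial.coeff_X, Polynomial.coeff_C, sub_eq_zero, -map_intCast, -eq_intCast] at h2 h1 h0
  ext i j
  fin_cases i <;> fin_cases j <;> simp [h2, h1, h0]

lemma Mv.im {g : M} {z w : ℍ} (a : Mv g z w) :
    w.im * normSq (g 1 0 * z + g 1 1 : ℂ) = g.det * z.im := by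
  have h1 := congrArg Complex.re a
  have h2 := congrArg Complex.im a
  simp [det_fin_two, normSq_apply] at *
  linear_combination (g 1 0 * z.re + g 1 1 : ℝ) * h2 - (g 1 0 * z.im : ℝ) * h1

lemma iso (g : M) : ∃ T : ℍ ≃ᵢ ℍ, 0 < g.det → ∀ z, Mv g z (T z) := by
  by_cases hg : 0 < g.det
  swap
  · exact ⟨.refl _, fun h => absurd h hg⟩
  have h0 : (0 : ℝ) < g.det := by exact_mod_cast hg
  set s := √(g.det : ℝ)
  have hs : s ≠ 0 := (Real.sqrt_pos.2 h0).ne'
  have h2 : s * s = g.det := Real.mul_self_sqrt h0.le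
  let γ : SL(2, ℝ) := ⟨.of fun i j => g i j / s, by
    rw [det_fin_two] at h2
    simp only [det_fin_two, of_apply]
    push_cast at h2
    field_simp
    linear_combination -h2⟩
  refine ⟨.constSMul γ, fun _ z => ?_⟩
  have := Mv.den hg.ne' z
  have hs' : (s : ℂ) ≠ 0 := by exact_mod_cast hs
  rw [Mv, IsometryEquiv.constSMul_apply, coe_specialLinearGroup_apply]
  simp [γ]
  rw [mul_comm] at this
  field_simp

def Prim (g : M) : Prop := ¬ ∀ i j, (11 : ℤ) ∣ g i j

lemma Prim.of_mul {g h : M} (a : Prim (h * g)) : Prim g := fun b => a fun i j => by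
  rw [mul_apply]; exact Finset.dvd_sum fun k _ => (b k j).mul_left _

lemma p11 : Prime (11 : ℤ) := Int.prime_iff_natAbs_prime.2 (by norm_num)

lemma uniq {g g' : M} {b z : ℍ} {n n' : ℕ} (hb : Tr b) (a : Mv g b z) (a' : Mv g' b z)
    (d : g.det = 11 ^ n) (d' : g'.det = 11 ^ n') (p : Prim g) (p' : Prim g') :
    n = n' ∧ ∃ μ : ℤ, μ ^ 2 = 1 ∧ g = μ • g' := by
  have h1 := congrArg (g' * ·) ((a'.adj.mul a).fix hb)
  generalize (g'.adjugate * g) 0 0 = l at h1
  simp only [← Matrix.mul_assoc, mul_adjugate, d', smul_mul, Matrix.one_mul, Matrix.mul_smul,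
    Matrix.mul_one] at h1
  obtain ⟨i, j, hij⟩ : ∃ i j, ¬ (11 : ℤ) ∣ g' i j := by
    simpa only [Prim, not_forall] using p'
  have h2 := congrFun (congrFun h1 i) j
  simp only [Matrix.smul_apply, smul_eq_mul] at h2
  obtain ⟨μ, rfl⟩ : (11 : ℤ) ^ n' ∣ l :=
    (((p11.irreducible.coprime_iff_not_dvd).2 hij).pow_left).dvd_of_dvd_mul_right ⟨_, h2.symm⟩
  rw [mul_smul] at h1
  have h3 : g = μ • g' := smul_right_injective _ (by positivity) h1
  have h4 : ¬ (11 : ℤ) ∣ μ := fun h => p fun i j => by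
    rw [h3, Matrix.smul_apply]; exact h.mul_right _
  have h5 : (11 : ℤ) ^ n = μ ^ 2 * 11 ^ n' := by rw [← d, h3, det_smul, d']; simp
  have h6 : IsUnit μ := (((p11.irreducible.coprime_iff_not_dvd).2 h4).pow_left (m := n)).symm.isUnit_of_dvd
    ⟨μ * 11 ^ n', by rw [h5]; ring⟩
  have h7 : μ ^ 2 = 1 := by rcases Int.isUnit_iff.1 h6 with h | h <;> simp [h]
  rw [h7, one_mul] at h5
  exact ⟨pow_right_injective₀ (by norm_num) (by norm_num) h5, μ, h7, h3⟩

end Pool.Agent.H.MP_e721cf_gt
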