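import Pool.Agent.H.MP_e721cf_gt.A

namespace Pool.Agent.H.MP_e721cf_gt

open UpperHalfPlane Complex Matrix ModularGroup
open scoped MatrixGroups Modular

lemma ex_r : ∃ r : ℍ → ℍ, (∀ z, r z ∈ 𝒟 ∧ ∃ γ : SL(2, ℤ), r z = γ • z) ∧
    (∀ (γ : SL(2, ℤ)) z, r (γ • z) = r z) ∧ ∀ z ∈ 𝒟ᵒ, r z = z := by
  choose f hf using exists_smul_mem_fd
  let o : ℍ → ℍ := fun z => (Quotient.mk (MulAction.orbitRel SL(2, ℤ) ℍ) z).out
  have h1 : ∀ z, ∃ γ : SL(2, ℤ), f (o z) • o z = γ • z := fun z => by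
    obtain ⟨g, hg⟩ := MulAction.orbitRel_apply.1
      (Quotient.mk_out (s := MulAction.orbitRel SL(2, ℤ) ℍ) z)
    exact ⟨f (o z) * g, by rw [mul_smul]; exact congrArg _ hg.symm⟩
  refine ⟨fun z => f (o z) • o z, fun z => ⟨hf _, h1 z⟩, fun γ z => ?_, fun z hz => ?_⟩
  · have : o (γ • z) = o z := congrArg Quotient.out
      (Quotient.sound (MulAction.orbitRel_apply.2 ⟨γ, rfl⟩))
    simp only [this]
  · obtain ⟨γ, h⟩ := h1 z
    have := hf (o z)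
    simp only [h] at this ⊢
    rcases eq_one_or_neg_one_of_mem_fdo_mem_fd hz this with rfl | rfl <;> simp

def Rel : Setoid ℍ where
  r z w := ∃ (n : ℕ) (g : M), g.det = 11 ^ n ∧ Mv g z w
  iseqv := ⟨fun z => ⟨0, 1, by simp, by simp [Mv]⟩,
    fun ⟨n, g, h, a⟩ => ⟨n, adjugate g, by simp [det_adjugate, h], a.adj⟩,
    fun ⟨n, g, h, a⟩ ⟨m, g', h', a'⟩ => ⟨m + n, g' * g, by rw [det_mul, h, h', pow_add], a'.mul a⟩⟩

lemma ex_G : ∃ (b : ℍ → ℍ) (d : ℍ → ℕ) (G : ℍ → M), (∀ z w, Rel.r z w → b z = b w) ∧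
    ∀ z, (G z).det = 11 ^ d z ∧ Mv (G z) (b z) z ∧ Prim (G z) := by
  classical
  let b : ℍ → ℍ := fun z => (Quotient.mk Rel z).out
  have h1 : ∀ z, ∃ (n : ℕ) (g : M), g.det = 11 ^ n ∧ Mv g (b z) z := fun z => Quotient.mk_out (s := Rel) z
  choose G hG using fun z => Nat.find_spec (h1 z)
  refine ⟨b, fun z => Nat.find (h1 z), G, fun z w h => congrArg Quotient.out (Quotient.sound h),
    fun z => ⟨(hG z).1, (hG z).2, fun h => ?_⟩⟩
  choose g hg using h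
  have e : G z = (11 : ℤ) • Matrix.of g := by ext i j; simp [hg]
  obtain ⟨h2, h3⟩ := hG z
  have hm := fun m => Nat.find_min (h1 z) (m := m)
  generalize Nat.find (h1 z) = n at h2 hm
  rw [e] at h2 h3
  rw [det_smul, Fintype.card_fin] at h2
  rcases n with _ | _ | n
  · omega
  · omega
  · exact hm n (by omega) ⟨.of g, by rw [pow_add, pow_add] at h2; omega, h3.smul (by norm_num)⟩

def hk (j : Fin 11) : M := !![1, (j : ℕ); 0, 11]
lemma hk_det (j : Fin 11) : (hk j).det = 11 := by simp [hk, det_fin_two]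

noncomputable def hz (j : Fin 11) (z : ℍ) : ℍ := ⟨(z + (j : ℕ)) / 11, by
  have := z.im_pos
  simp; positivity⟩
lemma mv_hz (j : Fin 11) (z : ℍ) : Mv (hk j) z (hz j z) := by simp [Mv, hk, hz]
lemma hz_im (j : Fin 11) (z : ℍ) : (hz j z).im = z.im / 11 := by
  rw [← coe_im]; simp [hz]

lemma one_bad {g : M} (hg : Prim g) : ∃ j0, ∀ j, j ≠ j0 → Prim (hk j * g) := by
  by_cases h : ∃ j0, ¬ Prim (hk j0 * g)
  swap
  · exact ⟨0, fun j _ => not_not.1 fun h' => h ⟨j, h'⟩⟩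
  obtain ⟨j0, h0⟩ := h
  refine ⟨j0, fun j hj h1 => hg ?_⟩
  replace h0 := not_not.1 h0
  have key : ∀ k, (11 : ℤ) ∣ g 0 k ∧ (11 : ℤ) ∣ g 1 k := fun k => by
    have a := h0 0 k
    have b := h1 0 k
    simp [hk, mul_apply, Fin.sum_univ_two] at a b
    have c : (11 : ℤ) ∣ ((j : ℕ) - (j0 : ℕ) : ℤ) * g 1 k := by
      rw [sub_mul]; simpa using dvd_sub b a
    have e : (11 : ℤ) ∣ g 1 k := (p11.dvd_or_dvd c).resolve_left fun h => hj (Fin.ext (by omega))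
    exact ⟨(dvd_add_left (e.mul_left _)).1 a, e⟩
  intro i k
  fin_cases i
  exacts [(key k).1, (key k).2]

lemma cancel {h g g' : M} (hd : h.det ≠ 0) (e : h * g = h * g') : g = g' :=
  (isRegular_of_isLeftRegular_det (IsRegular.of_ne_zero hd).left).left e
lemma cancel' {h g g' : M} (hd : h.det ≠ 0) (e : g * h = g' * h) : g = g' :=
  (isRegular_of_isLeftRegular_det (IsRegular.of_ne_zero hd).left).right e

lemma par {i j : Fin 11} {g g' δ : M} (hδ : δ.det = 1) (p : Prim (hk j * g'))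
    (e : hk i * g = δ * (hk j * g')) : ∃ ε : M, ε.det = 1 ∧ g = ε * g' ∧ (ε = 1 → i = j) := by
  obtain ⟨κ, hκ⟩ : (11 : ℤ) ∣ δ 1 0 := by
    by_contra h
    refine p fun a k => ?_
    fin_cases a
    · have := congrFun (congrFun e 1) k
      simp [hk, mul_apply, Fin.sum_univ_two, vecMul, dotProduct] at this ⊢
      exact (p11.dvd_or_dvd ⟨g 1 k - δ 1 1 * g' 1 k, by linear_combination -this⟩).resolve_left h
    · simp [hk, mul_apply, Fin.sum_univ_two]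
  refine ⟨!![δ 0 0 - (i : ℕ) * κ, δ 0 0 * (j : ℕ) + δ 0 1 * 11 - (i : ℕ) * (κ * (j : ℕ) + δ 1 1);
    κ, κ * (j : ℕ) + δ 1 1], ?_, cancel (h := hk i) (by simp [hk_det]) ?_, fun h => ?_⟩
  · rw [det_fin_two, hκ] at hδ
    simp [det_fin_two]; linear_combination hδ
  · rw [e, ← Matrix.mul_assoc, ← Matrix.mul_assoc]
    congr 1
    ext a k
    fin_cases a <;> fin_cases k <;> simp [hk, mul_apply, Fin.sum_univ_two, hκ] <;> ring
  · have a := congrFun (congrFun h 0) 0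
    have b := congrFun (congrFun h 0) 1
    have c := congrFun (congrFun h 1) 0
    have d := congrFun (congrFun h 1) 1
    simp at a b c d
    simp [c] at a b d
    simp [a, d] at b
    exact Fin.ext (by omega)

lemma bd {c d : ℤ} {z : ℍ} (h1 : 1 / 2 ≤ z.im) (h2 : |z.re| ≤ 1 / 2) (h : ‖(c * z + d : ℂ)‖ ≤ 600) :
    |c| ≤ 1200 ∧ |d| ≤ 1200 := by
  have a := (abs_im_le_norm _).trans h
  have b := (abs_re_le_norm _).trans h
  simp [abs_mul, abs_of_pos z.im_pos] at a b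
  have e : |(c : ℝ)| ≤ 1200 := by nlinarith [abs_nonneg (c : ℝ)]
  have f : |(d : ℝ)| ≤ 1200 := by
    have : |(d : ℝ)| ≤ |c * z.re + d| + |c * z.re| := by
      simpa using abs_sub (c * z.re + d) (c * z.re)
    rw [abs_mul] at this
    nlinarith [abs_nonneg (c : ℝ), abs_nonneg z.re]
  exact ⟨by exact_mod_cast e, by exact_mod_cast f⟩

lemma im_ge {z : ℍ} (h : z ∈ 𝒟) : 1 / 2 ≤ z.im := by
  nlinarith [three_le_four_mul_im_sq_of_mem_fd h, z.im_pos]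

def Sm : Set M := {g | ∀ i j, |g i j| ≤ 1200}
lemma Sm_fin : Sm.Finite :=
  (Set.finite_Icc (fun _ _ => -1200 : Fin 2 → Fin 2 → ℤ) fun _ _ => 1200).subset fun _ h =>
    ⟨fun i j => (abs_le.1 (h i j)).1, fun i j => (abs_le.1 (h i j)).2⟩

lemma mem_Sm {g : M} (hg : g.det = 11) {z w : ℍ} (a : Mv g z w) (hz : z ∈ 𝒟) (hw : w ∈ 𝒟)
    (hz' : z.im ≤ 22) (hw' : w.im ≤ 22) : g ∈ Sm := by
  have h1 := a.im
  rw [hg, normSq_eq_norm_sq] at h1
  push_cast at h1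
  have h2 : ‖(g 1 0 * z + g 1 1 : ℂ)‖ ≤ 22 := by
    refine abs_le_of_sq_le_sq' ?_ (by norm_num) |>.2
    nlinarith [im_ge hw, sq_nonneg ‖(g 1 0 * z + g 1 1 : ℂ)‖]
  have h3 : ‖(w : ℂ)‖ ≤ 23 := by
    have := norm_le_abs_re_add_abs_im (w : ℂ)
    have b := hw.2
    rw [coe_re, coe_im, abs_of_pos w.im_pos] at this
    linarith
  have h4 : ‖(g 0 0 * z + g 0 1 : ℂ)‖ ≤ 600 := by
    rw [← a, norm_mul]
    nlinarith [norm_nonneg (w : ℂ), norm_nonneg (g 1 0 * z + g 1 1 : ℂ)]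
  have b := bd (im_ge hz) hz.2 h4
  have c := bd (im_ge hz) hz.2 (h2.trans (by norm_num))
  intro i j
  fin_cases i <;> fin_cases j
  exacts [b.1, b.2, c.1, c.2]

lemma height (γ : SL(2, ℤ)) (j : Fin 11) {z : ℍ} (h : z ∈ 𝒟) (h' : z.im ≤ 22) :
    (γ • hz j z).im ≤ 22 := by
  have h1 := (mv_sl γ (hz j z)).im
  have h2 := im_ge h
  have h0 := (γ • hz j z).im_pos
  rw [γ.2, hz_im] at h1
  push_cast at h1
  generalize (γ • hz j z).im = y at *
  by_cases hc : γ.1 1 0 = 0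
  · have hd : γ.1 1 1 ≠ 0 := fun hd => by
      have := γ.2
      rw [det_fin_two, hc, hd] at this
      simp at this
    have : (1 : ℝ) ≤ (γ.1 1 1 : ℝ) ^ 2 := by exact_mod_cast (one_le_sq_iff_one_le_abs _).2 (Int.one_le_abs hd)
    simp only [hc, normSq_apply] at h1
    simp at h1
    nlinarith
  · have : (1 : ℝ) ≤ (γ.1 1 0 : ℝ) ^ 2 := by exact_mod_cast (one_le_sq_iff_one_le_abs _).2 (Int.one_le_abs hc)
    have h3 := im_sq_le_normSq (γ.1 1 0 * (hz j z : ℂ) + γ.1 1 1)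
    simp only [add_im, mul_im, intCast_re, intCast_im, coe_im, hz_im, zero_mul, add_zero] at h3
    have h4 : z.im / 11 * (z.im / 11) ≤ normSq (γ.1 1 0 * (hz j z : ℂ) + γ.1 1 1) := by nlinarith
    have h5 : y * (z.im / 11) ≤ 1 := by
      refine le_of_mul_le_mul_right (a := z.im / 11) ?_ (by linarith)
      nlinarith
    nlinarith

lemma tree : ∃ (Z : Set ℍ) (c : ℍ → Fin 10 → ℍ) (d : ℍ → ℕ) (S : Set (ℍ ≃ᵢ ℍ)), S.Finite ∧
    (∀ z ∈ Z, z ∈ 𝒟 ∧ z.im ≤ 22) ∧ (∀ z ∈ 𝒟ᵒ, z.im ≤ 22 → Tr z → z ∈ Z) ∧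
    (∀ z ∈ Z, ∀ i, c z i ∈ Z ∧ d z < d (c z i) ∧ ∃ T ∈ S, c z i = T z) ∧
    ∀ z ∈ Z, ∀ w ∈ Z, ∀ i j, c z i = c w j → z = w ∧ i = j := by
  obtain ⟨r, r1, r2, r3⟩ := ex_r
  obtain ⟨b, d, G, b1, b2⟩ := ex_G
  choose j0 hj using fun z => one_bad (b2 z).2.2
  choose I hI using iso
  choose γ hγ using fun z => (r1 z).2
  have key : ∀ z j, Tr z → Prim (hk j * G z) → Tr (r (hz j z)) ∧ b (r (hz j z)) = b z ∧
      d (r (hz j z)) = d z + 1 ∧
      ∃ μ : ℤ, μ ^ 2 = 1 ∧ G (r (hz j z)) = μ • ((γ (hz j z)).1 * (hk j * G z)) := fun z j ht hp => by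
    have a : Mv ((γ (hz j z)).1 * hk j) z (r (hz j z)) := by
      rw [hγ]; exact (mv_sl _ _).mul (mv_hz j z)
    have da : ((γ (hz j z)).1 * hk j).det = 11 ^ 1 := by simp [hk_det]
    have e := (b1 _ _ ⟨1, _, da, a⟩).symm
    refine ⟨a.adj.tr (by simp [det_adjugate, hk_det]) ht, e, ?_⟩
    have a' := a.mul (b2 z).2.1
    rw [Matrix.mul_assoc] at a'
    refine uniq ((b2 z).2.1.tr (by simp [(b2 z).1]) ht) (e ▸ (b2 _).2.1) a' (b2 _).1
      (by simp [hk_det, (b2 z).1, pow_succ']) (b2 _).2.2 (Prim.of_mul (h := (γ (hz j z))⁻¹.1) ?_)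
    rwa [← Matrix.mul_assoc, ← Matrix.SpecialLinearGroup.coe_mul, inv_mul_cancel,
      Matrix.SpecialLinearGroup.coe_one, Matrix.one_mul]
  have fd : ∀ z, r z = z → z ∈ 𝒟 := fun z h => h ▸ (r1 z).1
  refine ⟨{z | r z = z ∧ z.im ≤ 22 ∧ Tr z}, fun z i => r (hz ((j0 z).succAbove i) z), d, I '' Sm,
    Sm_fin.image _, fun z h => ⟨fd z h.1, h.2.1⟩, fun z h h1 h2 => ⟨r3 z h, h1, h2⟩,
    fun z h i => ?_, fun z h w h' i j e => ?_⟩
  · obtain ⟨k1, -, k2, -⟩ := key z _ h.2.2 (hj z _ ((j0 z).succAbove_ne i))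
    beta_reduce
    generalize (j0 z).succAbove i = j at *
    have hh : (r (hz j z)).im ≤ 22 := by rw [hγ]; exact height _ _ (fd z h.1) h.2.1
    have a : Mv ((γ (hz j z)).1 * hk j) z (r (hz j z)) := by
      rw [hγ]; exact (mv_sl _ _).mul (mv_hz j z)
    have da : ((γ (hz j z)).1 * hk j).det = 11 := by simp [hk_det]
    refine ⟨⟨?_, hh, k1⟩, by omega, _,
      ⟨_, mem_Sm da a (fd z h.1) (r1 _).1 h.2.1 hh, rfl⟩, a.uniq (by omega) (hI _ (by omega) z)⟩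
    conv_lhs => rw [hγ (hz j z), r2]
  · obtain ⟨-, e1, -, μ, m1, g1⟩ := key z _ h.2.2 (hj z _ ((j0 z).succAbove_ne i))
    have hp := hj w _ ((j0 w).succAbove_ne j)
    obtain ⟨-, e2, -, ν, m2, g2⟩ := key w _ h'.2.2 hp
    simp only at e
    rw [e] at e1 g1
    obtain ⟨ε, d1, d2, d3⟩ := par (i := (j0 z).succAbove i) (g := G z)
      (δ := (μ * ν) • ((γ (hz ((j0 z).succAbove i) z))⁻¹ * γ (hz ((j0 w).succAbove j) w)).1)
      (by rw [det_smul, Matrix.SpecialLinearGroup.det_coe, Fintype.card_fin, mul_pow, m1, m2]; simp)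
      hp (cancel (h := (γ (hz ((j0 z).succAbove i) z)).1) (by simp) (by
        rw [smul_mul, Matrix.mul_smul, ← Matrix.mul_assoc _ (Subtype.val _),
          ← Matrix.SpecialLinearGroup.coe_mul, mul_inv_cancel_left, mul_smul, ← g2, g1, smul_smul,
          ← sq, m1, one_smul]))
    let η : SL(2, ℤ) := ⟨ε, d1⟩
    have a : Mv (G z) (b z) (η • w) := by
      rw [d2, ← e1, e2]; exact (mv_sl η w).mul (b2 w).2.1
    have e3 := (b2 z).2.1.uniq (by simp [(b2 z).1]) a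
    have e4 : z = w := by rw [← h.1, e3, r2, h'.1]
    subst e4
    refine ⟨rfl, Fin.succAbove_right_injective (d3 ?_)⟩
    exact cancel' (h := G z) (by simp [(b2 z).1]) (by rw [← d2, Matrix.one_mul])

end Pool.Agent.H.MP_e721cf_gt
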